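import Pool.Agent.Lib.MP_2c6a66_lc.Exact
import Pool.Agent.Lib.MP_2c6a66_lc.Numeric

/-! The optimal ratio `R` of truthful-in-expectation mechanisms for two unrelated machines is
attained and equals the value of a minimax problem over monotone functions of one variable;
`1.5059957 ≤ R ≤ 1.5059958`. -/

namespace Pool.Agent.Lib.MP_2c6a66_lc.Shelf.RhoTEExact

theorem result :
    ∃ R : ℝ, 15059957 / 10000000 ≤ R ∧ R ≤ 15059958 / 10000000 ∧
      (∀ c : ℝ,
        (∀ n : ℕ, ∃ (p : (Fin 2 → Fin n → ℝ) → (Fin n → Fin 2) → ℝ)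
            (pay : (Fin 2 → Fin n → ℝ) → Fin 2 → ℝ),
          ∀ b : Fin 2 → Fin n → ℝ, (∀ i k, 0 ≤ b i k) →
            (∀ σ, 0 ≤ p b σ) ∧
            (∑ σ, p b σ = 1) ∧
            (∀ (i : Fin 2) (r : Fin n → ℝ), (∀ k, 0 ≤ r k) →
              pay (Function.update b i r) i
                  - ∑ σ, p (Function.update b i r) σ * ∑ k with σ k = i, b i k
                ≤ pay b i - ∑ σ, p b σ * ∑ k with σ k = i, b i k) ∧
            (∀ τ : Fin n → Fin 2,
              ∑ σ, p b σ * max (∑ k with σ k = 0, b 0 k) (∑ k with σ k = 1, b 1 k)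
                ≤ c * max (∑ k with τ k = 0, b 0 k) (∑ k with τ k = 1, b 1 k)))
          ↔ R ≤ c) ∧
      (∀ c : ℝ,
        (∃ w : ℝ → ℝ,
          (∀ x, 0 < x → 0 ≤ w x ∧ w x ≤ 1) ∧
          (∀ x y, 0 < x → x ≤ y → w y ≤ w x) ∧
          (∀ x, 0 < x → w x + w (1 / x) = 1) ∧
          (∀ x y, 0 < y → 1 + y ≤ x → 1 + y * w y + (x - 1 - y) * w x ≤ c))
          ↔ R ≤ c) := by
  obtain ⟨κ, hκ⟩ := Lib.MP_2c6a66_lc.exists_least
  have hprof : ∀ c : ℝ, (∃ w, Lib.MP_2c6a66_lc.UB.Prof (c - 1) w) ↔ 1 + κ ≤ c := by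
    intro c
    rw [hκ (c - 1)]
    constructor <;> intro h <;> linarith
  refine ⟨1 + κ, ?_, ?_, fun c => ?_, fun c => ?_⟩
  · obtain ⟨w, hw⟩ := (hκ κ).2 le_rfl
    have := Lib.MP_2c6a66_lc.Numeric.kappa_lower hw
    linarith
  · have := (hκ _).1 ⟨_, Lib.MP_2c6a66_lc.Numeric.prof_segs⟩
    linarith
  · rw [← hprof c]
    exact Lib.MP_2c6a66_lc.mechanisms_iff
  · rw [← hprof c]
    constructor
    · rintro ⟨w, h1, h2, h3, h4⟩
      exact ⟨w, fun x hx => (h1 x hx).1, fun x hx => (h1 x hx).2, h2, h3,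
        fun x y hy hx => by linarith [h4 x y hy hx]⟩
    · rintro ⟨w, hw⟩
      exact ⟨w, fun x hx => ⟨hw.nonneg x hx, hw.le_one x hx⟩, hw.anti, hw.symm,
        fun x y hy hx => by linarith [hw.star x y hy hx]⟩

end Pool.Agent.Lib.MP_2c6a66_lc.Shelf.RhoTEExact
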