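import Pool.Agent.Lib.MP_2c6a66_lc.UX.Value

/-! The optimal ratio `R` of universally truthful mechanisms for two unrelated machines is
attained and equals the value of a minimax problem over random monotone functions of one
variable; `1.57747 ≤ R ≤ 1.57764`. -/

namespace Pool.Agent.Lib.MP_2c6a66_lc.Shelf.RhoUTExact

open MeasureTheory

theorem result :
    ∃ R : ℝ, 157747 / 100000 ≤ R ∧ R ≤ 157764 / 100000 ∧
      (∀ c : ℝ,
        (∀ n : ℕ, ∃ (Ω : Type) (_ : MeasurableSpace Ω) (μ : Measure Ω)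
            (_ : IsProbabilityMeasure μ)
            (X : Ω → (Fin 2 → Fin n → ℝ) → Fin n → Fin 2)
            (pay : Ω → (Fin 2 → Fin n → ℝ) → Fin 2 → ℝ),
          (∀ ω (b : Fin 2 → Fin n → ℝ), (∀ i k, 0 ≤ b i k) →
            ∀ (i : Fin 2) (r : Fin n → ℝ), (∀ k, 0 ≤ r k) →
              pay ω (Function.update b i r) i - ∑ k with X ω (Function.update b i r) k = i, b i k
                ≤ pay ω b i - ∑ k with X ω b k = i, b i k) ∧
          (∀ b : Fin 2 → Fin n → ℝ, (∀ i k, 0 ≤ b i k) → Measurable fun ω => X ω b) ∧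
          (∀ b : Fin 2 → Fin n → ℝ, (∀ i k, 0 ≤ b i k) → ∀ τ : Fin n → Fin 2,
            ∫ ω, max (∑ k with X ω b k = 0, b 0 k) (∑ k with X ω b k = 1, b 1 k) ∂μ
              ≤ c * max (∑ k with τ k = 0, b 0 k) (∑ k with τ k = 1, b 1 k)))
          ↔ R ≤ c) ∧
      (∀ c : ℝ,
        (∃ (Ω : Type) (_ : MeasurableSpace Ω) (μ : Measure Ω) (_ : IsProbabilityMeasure μ)
            (k : Ω → ℝ → ℝ),
          (∀ ω x, 0 < x → 0 ≤ k ω x ∧ k ω x ≤ 1) ∧
          (∀ ω x y, 0 < x → x ≤ y → k ω x ≤ k ω y) ∧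
          (∀ x, 0 < x → Measurable fun ω => k ω x) ∧
          (∀ x y, 0 < x → 0 < y →
            ∫ ω, ((1 + y) * (k ω x * k ω (1 / y)) + k ω x * (1 - k ω (1 / y))
              + max x y * ((1 - k ω x) * k ω (1 / y))
              + (1 + x) * ((1 - k ω x) * (1 - k ω (1 / y)))) ∂μ ≤ c))
          ↔ R ≤ c) := by
  obtain ⟨R, h1, h2, hR⟩ := Lib.MP_2c6a66_lc.UX.exists_value
  refine ⟨R, h1, h2, fun c => ?_, fun c => ?_⟩
  · rw [← hR c, ← Lib.MP_2c6a66_lc.UX.hasUT_iff]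
    rfl
  · rw [← hR c, ← Lib.MP_2c6a66_lc.UX.plainMix_iff]
    rfl

end Pool.Agent.Lib.MP_2c6a66_lc.Shelf.RhoUTExact
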